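import Mathlib
import Pool.Agent.H99.Stein1

set_option autoImplicit false

open MeasureTheory Set Filter Topology

namespace Pool.Agent.Results.MP_da2747_an.Stagger

/-- Admissible functions on the extended plane for plates with potentials `1, -1, 0`. -/
def Adm (E₁ E₂ E₃ : Set (OnePoint ℂ)) (v : OnePoint ℂ → ℝ) : Prop :=
  Continuous v ∧ LocallyLipschitz (fun z : ℂ => v z) ∧ (∀ p ∈ E₁, v p = 1) ∧
    (∀ p ∈ E₂, v p = -1) ∧ ∀ p ∈ E₃, v p = 0

/-- Capacity: infimum of the Dirichlet integral over admissible functions. -/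
noncomputable def cap (E₁ E₂ E₃ : Set (OnePoint ℂ)) : ENNReal :=
  ⨅ (v : OnePoint ℂ → ℝ) (_ : Adm E₁ E₂ E₃ v), ∫⁻ z : ℂ, ‖fderiv ℝ (fun w : ℂ => v w) z‖ₑ ^ 2

/-- The slice of a set on the vertical line with real part `x`. -/
def sl (B : Set (OnePoint ℂ)) (x : ℝ) : Set ℝ := {t | ((⟨x, t⟩ : ℂ) : OnePoint ℂ) ∈ B}

/-- Steiner symmetrization of an open set. -/
def StO (B : Set (OnePoint ℂ)) : Set (OnePoint ℂ) :=
  (fun z : ℂ => (z : OnePoint ℂ)) ''
    {z | (sl B z.re).Nonempty ∧ ENNReal.ofReal (2 * |z.im|) < volume (sl B z.re)}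

/-- Steiner symmetrization of a closed set. -/
def StC (E : Set (OnePoint ℂ)) : Set (OnePoint ℂ) :=
  (fun z : ℂ => (z : OnePoint ℂ)) ''
    {z | (sl E z.re).Nonempty ∧ ENNReal.ofReal (2 * |z.im|) ≤ volume (sl E z.re)}

lemma ext_cont {u : ℂ → ℝ} {L N : ℝ} (h : H99.Stein.Gl u L) (h1 : ∀ w, 26 < |w.re| → u w = 0)
    (h2 : ∀ w, N < |w.im| → u w = 0) : Continuous fun p : OnePoint ℂ => (p.elim 0 u : ℝ) := by
  refine (OnePoint.continuous_iff _).2 ⟨?_, h.lip.continuous⟩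
  rw [coclosedCompact_eq_cocompact, ← Metric.cobounded_eq_cocompact]
  refine tendsto_const_nhds.congr' ?_
  filter_upwards [eventually_cobounded_le_norm (27 + N)] with w hw
  have := Complex.norm_le_abs_re_add_abs_im w
  by_cases p : 26 < |w.re|
  · exact (h1 w p).symm
  · exact (h2 w (by linarith)).symm

lemma cap_le {E₁ E₂ E₃ : Set (OnePoint ℂ)} {u : ℂ → ℝ} {L N : ℝ} (h : H99.Stein.Gl u L)
    (h1 : ∀ w, 26 < |w.re| → u w = 0) (h2 : ∀ w, N < |w.im| → u w = 0)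
    (k1 : ∀ p ∈ E₁, p.elim 0 u = 1) (k2 : ∀ p ∈ E₂, p.elim 0 u = -1)
    (k3 : ∀ p ∈ E₃, p.elim 0 u = 0) : cap E₁ E₂ E₃ ≤ H99.Stein.En u := by
  have e : (fun w : ℂ => ((w : OnePoint ℂ).elim 0 u : ℝ)) = u := funext fun _ => rfl
  have a : Adm E₁ E₂ E₃ fun p => p.elim 0 u :=
    ⟨ext_cont h h1 h2, by rw [e]; exact h.lip.locallyLipschitz, k1, k2, k3⟩
  have b := iInf₂_le (f := fun (v : OnePoint ℂ → ℝ) (_ : Adm E₁ E₂ E₃ v) =>
    ∫⁻ z : ℂ, ‖fderiv ℝ (fun w : ℂ => v w) z‖ₑ ^ 2) _ a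
  rw [e] at b
  exact b

theorem result : ∃ (E₁ E₂ : Set ℂ) (E₃ : Set (OnePoint ℂ)),
    IsCompact E₁ ∧ E₁.Nonempty ∧ (∀ z ∈ E₁, z.re < 0) ∧ E₂ = {z | -(starRingEnd ℂ z) ∈ E₁} ∧
    IsClosed E₃ ∧ Disjoint ((↑) '' E₁) E₃ ∧ Disjoint ((↑) '' E₂) E₃ ∧
    cap ((↑) '' E₁) ((↑) '' E₂) E₃ < cap (StC ((↑) '' E₁)) (StC ((↑) '' E₂)) (StO E₃ᶜ)ᶜ ∧
    cap (StC ((↑) '' E₁)) (StC ((↑) '' E₂)) (StO E₃ᶜ)ᶜ < ⊤ := by
  obtain ⟨M, hM⟩ : ∃ M : ℝ, M = 300000 := ⟨_, rfl⟩
  have M0 : 0 < M := by rw [hM]; norm_num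
  set P : ℝ → Set ℂ := fun c => {z | z.re = c ∧ |z.im| ≤ M} with hP
  set K : Set ℂ := {z | (z.re = -1 ∧ (z.im ≤ 0 ∨ M ≤ z.im)) ∨ (z.re = 1 ∧ (z.im ≤ -M ∨ 0 ≤ z.im))}
    with hK
  set E₃ : Set (OnePoint ℂ) := insert OnePoint.infty ((↑) '' K) with hE
  have m3 : ∀ z : ℂ, (z : OnePoint ℂ) ∈ E₃ ↔ z ∈ K := fun z => by simp [hE]
  have mP : ∀ c (z : ℂ), (z : OnePoint ℂ) ∈ (↑) '' P c ↔ z ∈ P c := fun c z => by simp
  have sP : ∀ c, StC ((↑) '' P c) = (↑) '' P c := fun c => by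
    rw [StC]; congr 1; ext z
    by_cases h : z.re = c
    · have : sl ((↑) '' P c) z.re = Icc (-M) M := by
        ext t; exact (mP c _).trans ⟨fun k => abs_le.1 k.2, fun k => ⟨h, abs_le.2 k⟩⟩
      rw [mem_ofPred_eq, this, Real.volume_Icc, ENNReal.ofReal_le_ofReal_iff (by linarith)]
      exact ⟨fun k => ⟨h, by linarith [k.2]⟩, fun k => ⟨⟨0, by simp [M0.le]⟩, by linarith [k.2]⟩⟩
    · have : sl ((↑) '' P c) z.re = ∅ := by
        ext t; exact (mP c _).trans ⟨fun k => h k.1, fun k => k.elim⟩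
      rw [mem_ofPred_eq, this]
      exact ⟨fun k => absurd k.1 not_nonempty_empty, fun k => absurd k.1 h⟩
  have s1 : sl E₃ᶜ (-1) = Ioo 0 M := by
    ext t; simp only [sl, mem_ofPred_eq, mem_compl_iff, m3, hK, mem_Ioo]; norm_num
  have s2 : sl E₃ᶜ 1 = Ioo (-M) 0 := by
    ext t; simp only [sl, mem_ofPred_eq, mem_compl_iff, m3, hK, mem_Ioo]; norm_num
  have s3 : ∀ x, x ≠ -1 → x ≠ 1 → sl E₃ᶜ x = univ := fun x a b => by
    ext t; simp [sl, m3, hK, a, b]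
  have mO : ∀ z : ℂ, (z : OnePoint ℂ) ∈ StO E₃ᶜ ↔ (sl E₃ᶜ z.re).Nonempty ∧
      ENNReal.ofReal (2 * |z.im|) < volume (sl E₃ᶜ z.re) := fun z => by
    rw [StO, OnePoint.coe_injective.mem_set_image]; rfl
  have e2 : {z : ℂ | -(starRingEnd ℂ z) ∈ P (-2)} = P 2 := by
    ext z; simp [hP]
  have low : ENNReal.ofReal (3 * M) ≤ cap ((↑) '' P (-2)) ((↑) '' P 2) (StO E₃ᶜ)ᶜ := by
    refine le_iInf₂ fun v hv => H99.Stein.lower hv.2.1 M0 (fun y hy => hv.2.2.1 _ ⟨_, ⟨rfl, hy⟩, rfl⟩)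
      (fun y hy => hv.2.2.2.1 _ ⟨_, ⟨rfl, hy⟩, rfl⟩) fun y hy => ⟨hv.2.2.2.2 _ fun h => ?_,
        hv.2.2.2.2 _ fun h => ?_⟩
    · have := ((mO _).1 h).2
      rw [s1, Real.volume_Ioo, ENNReal.ofReal_lt_ofReal_iff (by linarith)] at this
      simp only at this; linarith
    · have := ((mO _).1 h).2
      rw [s2, Real.volume_Ioo, ENNReal.ofReal_lt_ofReal_iff (by linarith)] at this
      simp only at this; linarith
  have r1 : ∀ z : ℂ, |z.im| ≤ M → H99.Stein.r (M + 1 - |z.im|) = 1 := fun z h =>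
    H99.Stein.r1 (by linarith)
  have cr := Complex.continuous_re
  have ci := Complex.continuous_im
  refine ⟨P (-2), P 2, E₃, ?_, ⟨⟨-2, 0⟩, rfl, by simp [M0.le]⟩, fun z h => by rw [h.1]; norm_num,
    e2.symm, ?_, ?_, ?_, ?_, ?_⟩
  · refine Metric.isCompact_of_isClosed_isBounded ((isClosed_eq cr continuous_const).inter
      (isClosed_le ci.abs continuous_const)) (isBounded_iff_forall_norm_le.2 ⟨2 + M, fun z h => ?_⟩)
    have := Complex.norm_le_abs_re_add_abs_im z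
    rw [h.1] at this; norm_num at this; linarith [h.2]
  · rw [OnePoint.isClosed_iff_of_mem (mem_insert _ _),
      show (↑) ⁻¹' E₃ = K from Set.ext m3]
    exact ((isClosed_eq cr continuous_const).inter ((isClosed_le ci continuous_const).union
      (isClosed_le continuous_const ci))).union ((isClosed_eq cr continuous_const).inter
      ((isClosed_le ci continuous_const).union (isClosed_le continuous_const ci)))
  · rw [disjoint_left]
    rintro _ ⟨z, h, rfl⟩ k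
    rcases (m3 z).1 k with a | a <;> linarith [h.1, a.1]
  · rw [disjoint_left]
    rintro _ ⟨z, h, rfl⟩ k
    rcases (m3 z).1 k with a | a <;> linarith [h.1, a.1]
  · rw [sP, sP]
    have up : H99.Stein.En (H99.Stein.v M) < ENNReal.ofReal (3 * M) := by
      refine (H99.Stein.upper (M := M) (by rw [hM]; norm_num)).trans_lt ?_
      rw [ENNReal.ofReal_lt_ofReal_iff (by linarith), hM]; norm_num
    refine lt_of_lt_of_le (lt_of_le_of_lt (cap_le
      (H99.Stein.v_Gl M) (H99.Stein.v_re M) (H99.Stein.v_im M0.le) ?_ ?_ ?_) up) low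
    · rintro _ ⟨z, h, rfl⟩
      obtain ⟨a, b, c⟩ := (H99.Stein.vals z).1 h.1
      show H99.Stein.v M z = 1
      simp [H99.Stein.v, H99.Stein.u0, a, b, c, r1 z h.2]
    · rintro _ ⟨z, h, rfl⟩
      obtain ⟨a, b, c⟩ := (H99.Stein.vals z).2.1 h.1
      show H99.Stein.v M z = -1
      simp [H99.Stein.v, H99.Stein.u0, a, b, c, r1 z h.2]
    · rintro _ (rfl | ⟨z, h | h, rfl⟩)
      · rfl
      · obtain ⟨a, b⟩ := (H99.Stein.vals z).2.2.1 h.1
        show H99.Stein.v M z = 0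
        rw [H99.Stein.v, H99.Stein.u0, a, b, H99.Stein.r0 (t := min z.im (M - z.im))
          (h.2.elim min_le_of_left_le fun k => min_le_of_right_le (by linarith))]
        simp
      · obtain ⟨a, b⟩ := (H99.Stein.vals z).2.2.2 h.1
        show H99.Stein.v M z = 0
        rw [H99.Stein.v, H99.Stein.u0, a, b, H99.Stein.r0 (t := min (-z.im) (z.im + M))
          (h.2.elim (fun k => min_le_of_right_le (by linarith))
            fun k => min_le_of_left_le (by linarith))]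
        simp
  · rw [sP, sP]
    refine lt_of_le_of_lt (cap_le (H99.Stein.u0_Gl M) (H99.Stein.u0_re M) (H99.Stein.u0_im M)
      ?_ ?_ ?_) (H99.Stein.u0_fin M M0.le)
    · rintro _ ⟨z, h, rfl⟩
      show H99.Stein.u0 M z = 1
      rw [H99.Stein.u0, ((H99.Stein.vals z).1 h.1).1, r1 z h.2, one_mul]
    · rintro _ ⟨z, h, rfl⟩
      show H99.Stein.u0 M z = -1
      rw [H99.Stein.u0, ((H99.Stein.vals z).2.1 h.1).1, r1 z h.2, mul_one]
    · intro p hp
      induction p using OnePoint.rec with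
      | infty => rfl
      | coe z =>
        show H99.Stein.u0 M z = 0
        by_cases a : z.re = -1
        · rw [H99.Stein.u0, ((H99.Stein.vals z).2.2.1 a).1, zero_mul]
        by_cases b : z.re = 1
        · rw [H99.Stein.u0, ((H99.Stein.vals z).2.2.2 b).1, zero_mul]
        · exact absurd ((mO z).2
            (by rw [s3 _ a b, Real.volume_univ]; exact ⟨univ_nonempty, ENNReal.ofReal_lt_top⟩)) hp

end Pool.Agent.Results.MP_da2747_an.Stagger
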